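import Pool.Agent.Helper50.BC.Goals

/-!
# Project BC: `G_CAP`
-/

open scoped ContDiff
open Real

namespace Pool.Agent.Helper85.BC

open Pool.Agent.Helper50.BC

section phi

variable {q : ℕ} (u : E q → ℝ) (hu : ContDiff ℝ ∞ u) (l : ℝ) (hl : 0 < l)

/-- the exponential factor -/
noncomputable def ee (u : E q → ℝ) (l : ℝ) (y : E q) : ℝ := Real.exp (-(20 * l * u (l⁻¹ • y)))

/-- the function `Φ` -/
noncomputable def Phi (u : E q → ℝ) (l : ℝ) (y : E q) : ℝ := 1 / 100 * (1 - ee u l y)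

include hu

theorem ud (w : E q) : HasFDerivAt u (fderiv ℝ u w) w :=
  ((hu.differentiable (by simp)) w).hasFDerivAt

theorem comp_deriv (y : E q) :
    HasFDerivAt (fun y ↦ u (l⁻¹ • y)) (l⁻¹ • fderiv ℝ u (l⁻¹ • y)) y := by
  have h1 : HasFDerivAt (fun y : E q ↦ l⁻¹ • y) (l⁻¹ • ContinuousLinearMap.id ℝ (E q)) y :=
    (hasFDerivAt_id y).const_smul l⁻¹
  have h2 : HasFDerivAt (fun y ↦ u (l⁻¹ • y))
      ((fderiv ℝ u (l⁻¹ • y)).comp (l⁻¹ • ContinuousLinearMap.id ℝ (E q))) y :=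
    (ud u hu (l⁻¹ • y)).comp y h1
  refine h2.congr_fderiv ?_
  ext v
  simp

include hl

theorem ee_deriv (y : E q) :
    HasFDerivAt (ee u l) ((-(20 * ee u l y)) • fderiv ℝ u (l⁻¹ • y)) y := by
  have h1 := ((comp_deriv u hu l y).const_mul (-(20 * l))).exp
  have e : (fun y ↦ Real.exp (-(20 * l) * u (l⁻¹ • y))) = ee u l := by
    funext z
    unfold ee
    congr 1
    ring
  rw [e] at h1
  refine h1.congr_fderiv ?_
  have e2 : Real.exp (-(20 * l) * u (l⁻¹ • y)) = ee u l y := congrFun e y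
  rw [e2]
  ext v
  have : l ≠ 0 := hl.ne'
  simp only [_root_.smul_apply, smul_eq_mul]
  field_simp

theorem Phi_deriv (y : E q) :
    HasFDerivAt (Phi u l) ((ee u l y / 5) • fderiv ℝ u (l⁻¹ • y)) y := by
  have h1 : HasFDerivAt (Phi u l) _ y :=
    (((ee_deriv u hu l hl y).const_sub 1).const_mul (1 / 100))
  refine h1.congr_fderiv ?_
  ext v
  simp only [_root_.smul_apply, _root_.neg_apply, smul_eq_mul]
  ring

theorem Phi_fderiv : fderiv ℝ (Phi u l) = fun y ↦ (ee u l y / 5) • fderiv ℝ u (l⁻¹ • y) := by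
  funext y
  exact (Phi_deriv u hu l hl y).fderiv

theorem Phi_second (y v : E q) :
    fderiv ℝ (fderiv ℝ (Phi u l)) y v v = -(4 * ee u l y * (fderiv ℝ u (l⁻¹ • y) v) ^ 2) +
      ee u l y / (5 * l) * fderiv ℝ (fderiv ℝ u) (l⁻¹ • y) v v := by
  have hu' : ContDiff ℝ ∞ (fderiv ℝ u) := hu.fderiv_right (by simp)
  have h1 : HasFDerivAt (fun y : E q ↦ l⁻¹ • y) (l⁻¹ • ContinuousLinearMap.id ℝ (E q)) y :=
    (hasFDerivAt_id y).const_smul l⁻¹
  have h2 : HasFDerivAt (fderiv ℝ u) (fderiv ℝ (fderiv ℝ u) (l⁻¹ • y)) (l⁻¹ • y) :=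
    ((hu'.differentiable (by simp)) _).hasFDerivAt
  have h3 := h2.comp y h1
  have h4 := (((ee_deriv u hu l hl y).mul_const (1 / 5 : ℝ)).smul h3)
  have e : (fun y ↦ (ee u l y * (1 / 5)) • (fderiv ℝ u ∘ fun y ↦ l⁻¹ • y) y) =
      fun y ↦ (ee u l y / 5) • fderiv ℝ u (l⁻¹ • y) := by
    funext z
    simp only [Function.comp]
    congr 1
    ring
  rw [Phi_fderiv u hu l hl, ← e]
  have h5 : HasFDerivAt (fun y ↦ (ee u l y * (1 / 5)) • (fderiv ℝ u ∘ fun y ↦ l⁻¹ • y) y) _ y := h4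
  rw [h5.fderiv]
  have : l ≠ 0 := hl.ne'
  simp only [_root_.add_apply, _root_.smul_apply,
    ContinuousLinearMap.smulRight_apply, ContinuousLinearMap.comp_apply,
    ContinuousLinearMap.id_apply, smul_eq_mul, map_smul, Function.comp]
  field_simp
  ring

end phi

/-- the square of the gradient plus the square of `h` -/
noncomputable def N2 {q : ℕ} (h : E q → ℝ) (w : E q) : ℝ := ‖fderiv ℝ h w‖ ^ 2 + h w ^ 2

theorem N2_smooth {q : ℕ} (h : E q → ℝ) (hh : ContDiff ℝ ∞ h) : ContDiff ℝ ∞ (N2 h) := by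
  have h1 : ContDiff ℝ ∞ (fderiv ℝ h) := hh.fderiv_right (by simp)
  have h2 : ContDiff ℝ ∞ (fun w ↦ (InnerProductSpace.toDual ℝ (E q)).symm (fderiv ℝ h w)) :=
    (InnerProductSpace.toDual ℝ (E q)).symm.contDiff.comp h1
  have h3 : ContDiff ℝ ∞ (fun w ↦ ‖(InnerProductSpace.toDual ℝ (E q)).symm (fderiv ℝ h w)‖ ^ 2) :=
    h2.norm_sq ℝ
  have h4 : N2 h = fun w ↦ ‖(InnerProductSpace.toDual ℝ (E q)).symm (fderiv ℝ h w)‖ ^ 2 + h w ^ 2 := by
    funext w
    unfold N2
    rw [LinearIsometryEquiv.norm_map]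
  rw [h4]
  exact h3.add (hh.pow 2)

theorem N2_pos {q : ℕ} (h : E q → ℝ) (hreg : ∀ w, h w = 0 → fderiv ℝ h w ≠ 0) (w : E q) :
    0 < N2 h w := by
  unfold N2
  by_cases h0 : h w = 0
  · have := norm_pos_iff.2 (hreg w h0)
    positivity
  · have : 0 < h w ^ 2 := by positivity
    positivity

theorem goalCAP (hc : G_CHI) : G_CAP := by
  intro q h hh hK hreg
  obtain ⟨χ, hχs, hχp, hχ⟩ := hc
  have hNs := N2_smooth h hh
  have hNp := N2_pos h hreg
  set n : E q → ℝ := fun w ↦ √(N2 h w) with hn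
  have hnp : ∀ w, 0 < n w := fun w ↦ Real.sqrt_pos.2 (hNp w)
  have hns : ContDiff ℝ ∞ n := hNs.sqrt (fun w ↦ (hNp w).ne')
  set u : E q → ℝ := fun w ↦ h w / n w with hu
  have hus : ContDiff ℝ ∞ u := hh.div hns (fun w ↦ (hnp w).ne')
  have hK0 : ∀ w, 0 ≤ u w ↔ 0 ≤ h w := by
    intro w
    constructor
    · intro h1
      have : h w = u w * n w := by
        simp only [hu]
        field_simp [(hnp w).ne']
      rw [this]
      exact mul_nonneg h1 (hnp w).le
    · intro h1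
      exact div_nonneg h1 (hnp w).le
  have hKu : IsCompact {w | 0 ≤ u w} := by
    have : {w | 0 ≤ u w} = {w | 0 ≤ h w} := by
      ext w
      exact hK0 w
    rw [this]
    exact hK
  have hu0 : ∀ w, u w = 0 → ‖fderiv ℝ u w‖ = 1 := by
    intro w h0
    have h1 : h w = 0 := by
      have : h w = u w * n w := by
        simp only [hu]
        field_simp [(hnp w).ne']
      rw [this, h0, zero_mul]
    have h2 : HasFDerivAt (fun w ↦ h w * (n w)⁻¹) ((n w)⁻¹ • fderiv ℝ h w) w := by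
      have a1 : HasFDerivAt h (fderiv ℝ h w) w := ((hh.differentiable (by simp)) w).hasFDerivAt
      have hni : ContDiff ℝ ∞ (fun w ↦ (n w)⁻¹) := hns.inv (fun w ↦ (hnp w).ne')
      have a2 : HasFDerivAt (fun w ↦ (n w)⁻¹) (fderiv ℝ (fun w ↦ (n w)⁻¹) w) w :=
        ((hni.differentiable (by simp)) w).hasFDerivAt
      refine (a1.mul a2).congr_fderiv ?_
      rw [h1, zero_smul, zero_add]
    have h3 : u = fun w ↦ h w * (n w)⁻¹ := by
      funext z
      simp only [hu]
      rw [div_eq_mul_inv]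
    rw [h3, h2.fderiv, norm_smul]
    have h4 : n w = ‖fderiv ℝ h w‖ := by
      simp only [hn]
      unfold N2
      rw [h1]
      simp
    rw [h4, norm_inv, norm_norm]
    have := norm_pos_iff.2 (hreg w h1)
    field_simp
  have hd1 : Continuous (fun w ↦ ‖fderiv ℝ u w‖ ^ 2) := by
    have : ContDiff ℝ ∞ (fderiv ℝ u) := hus.fderiv_right (by simp)
    exact (this.continuous.norm).pow 2
  have hd2 : Continuous (fun w ↦ ‖fderiv ℝ (fderiv ℝ u) w‖) := by
    have h1 : ContDiff ℝ ∞ (fderiv ℝ u) := hus.fderiv_right (by simp)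
    have h2 : ContDiff ℝ ∞ (fderiv ℝ (fderiv ℝ u)) := h1.fderiv_right (by simp)
    exact (continuous_norm (E := E q →L[ℝ] E q →L[ℝ] ℝ)).comp h2.continuous
  obtain ⟨H1, hH1⟩ := hKu.exists_bound_of_continuousOn hd1.continuousOn
  obtain ⟨H2, hH2'⟩ := hKu.exists_bound_of_continuousOn hd2.continuousOn
  have hH2 : ∀ w, 0 ≤ u w → ‖fderiv ℝ (fderiv ℝ u) w‖ ≤ H2 := by
    intro w hw
    have := hH2' w hw
    rw [Real.norm_eq_abs] at this
    exact (le_abs_self _).trans this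
  set H : ℝ := max (max H1 H2) 0 with hH
  have hH0 : 0 ≤ H := le_max_right _ _
  have hHa : ∀ w, 0 ≤ u w → ‖fderiv ℝ u w‖ ^ 2 ≤ H := by
    intro w hw
    have := hH1 w hw
    rw [Real.norm_of_nonneg (by positivity)] at this
    exact this.trans ((le_max_left _ _).trans (le_max_left _ _))
  have hHb : ∀ w, 0 ≤ u w → ‖fderiv ℝ (fderiv ℝ u) w‖ ≤ H := by
    intro w hw
    exact (hH2 w hw).trans ((le_max_right _ _).trans (le_max_left _ _))
  obtain ⟨d, hd0, hd⟩ : ∃ d : ℝ, 0 < d ∧ ∀ w, 0 ≤ u w → u w < d →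
      |‖fderiv ℝ u w‖ ^ 2 - 1| ≤ 1 / 100 := by
    have hA : IsCompact ({w | 0 ≤ u w} ∩ {w | 1 / 100 ≤ |‖fderiv ℝ u w‖ ^ 2 - 1|}) := by
      apply hKu.inter_right
      exact isClosed_le continuous_const ((hd1.sub continuous_const).abs)
    rcases Set.eq_empty_or_nonempty ({w | 0 ≤ u w} ∩ {w | 1 / 100 ≤ |‖fderiv ℝ u w‖ ^ 2 - 1|}) with
      hE | hE
    · refine ⟨1, one_pos, fun w hw _ ↦ ?_⟩
      by_contra hcon
      have : w ∈ ({w | 0 ≤ u w} ∩ {w | 1 / 100 ≤ |‖fderiv ℝ u w‖ ^ 2 - 1|}) :=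
        ⟨hw, (not_le.1 hcon).le⟩
      rw [hE] at this
      exact this
    · obtain ⟨w₀, hw₀, hmin⟩ := hA.exists_isMinOn hE hus.continuous.continuousOn
      refine ⟨u w₀, ?_, ?_⟩
      · have hw₁ : 0 ≤ u w₀ := hw₀.1
        rcases lt_or_eq_of_le hw₁ with h1 | h1
        · exact h1
        · exfalso
          have h2 := hu0 w₀ h1.symm
          have h3 : 1 / 100 ≤ |‖fderiv ℝ u w₀‖ ^ 2 - 1| := hw₀.2
          rw [h2] at h3
          norm_num at h3
      · intro w hw hlt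
        by_contra hcon
        have h1 : w ∈ ({w | 0 ≤ u w} ∩ {w | 1 / 100 ≤ |‖fderiv ℝ u w‖ ^ 2 - 1|}) :=
          ⟨hw, (not_le.1 hcon).le⟩
        have h2 : u w₀ ≤ u w := hmin h1
        linarith
  set l : ℝ := 20 * H + 1 + 5 * (4 * H + 1) / d with hl
  have hl2 : 0 ≤ 5 * (4 * H + 1) / d := by positivity
  have hl0 : 0 < l := by rw [hl]; linarith
  have hlH : 20 * H ≤ l := by rw [hl]; linarith
  have hld : 5 * (4 * H + 1) ≤ l * d := by
    have : 5 * (4 * H + 1) / d ≤ l := by rw [hl]; linarith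
    rwa [div_le_iff₀ hd0] at this
  refine ⟨l, fun w ↦ √(l / 5 * χ (20 * l * u w) / n w), Phi u l, hl0, ?_, ?_, ?_, ?_, ?_⟩
  · apply ContDiff.sqrt
    · apply ContDiff.div _ hns (fun w ↦ (hnp w).ne')
      exact contDiff_const.mul (hχs.comp (contDiff_const.mul hus))
    · intro w
      have := hχp (20 * l * u w)
      have := hnp w
      positivity
  · intro w
    have := hχp (20 * l * u w)
    have := hnp w
    positivity
  · unfold Phi ee
    apply contDiff_const.mul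
    apply contDiff_const.sub
    apply ContDiff.exp
    apply ContDiff.neg
    apply contDiff_const.mul
    have hlin : ContDiff ℝ ∞ (fun y : E q ↦ l⁻¹ • y) := contDiff_const_smul l⁻¹
    exact hus.comp hlin
  · intro w
    have h1 := hχp (20 * l * u w)
    have h2 := hnp w
    rw [Real.sq_sqrt (by positivity)]
    unfold Phi ee
    rw [inv_smul_smul₀ hl0.ne', ← hχ (20 * l * u w)]
    simp only [hu]
    field_simp
    ring
  · intro y hy
    set w : E q := l⁻¹ • y with hw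
    set e : ℝ := ee u l y with he
    have hePos : 0 < e := Real.exp_pos _
    have hPhi : Phi u l y = 1 / 100 * (1 - e) := rfl
    have he1 : e ≤ 1 := by
      rw [hPhi] at hy
      linarith
    have huw : 0 ≤ u w := by
      have h1 : Real.exp (-(20 * l * u w)) ≤ Real.exp 0 := by
        rw [Real.exp_zero]
        exact he1
      rw [Real.exp_le_exp] at h1
      by_contra hcon
      have : 20 * l * u w < 0 := mul_neg_of_pos_of_neg (by linarith) (not_le.1 hcon)
      linarith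
    have hfd : fderiv ℝ (Phi u l) y = (e / 5) • fderiv ℝ u w := by
      rw [Phi_fderiv u hus l hl0]
    set N : ℝ := ‖fderiv ℝ u w‖ ^ 2 with hN
    have hN0 : 0 ≤ N := by positivity
    have hNH : N ≤ H := hHa w huw
    have hnorm : ‖fderiv ℝ (Phi u l) y‖ ^ 2 + 4 * Phi u l y =
        (1 / 25) * (e ^ 2 * N + 1 - e) := by
      rw [hfd, norm_smul, mul_pow, ← hN, hPhi, Real.norm_of_nonneg (by positivity)]
      ring
    have hcase : (0.86 ^ 2 ≤ e ^ 2 * N + 1 - e ∧ (4 * e * N + e / 100) ^ 2 ≤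
        4.6 ^ 2 * (e ^ 2 * N + 1 - e)) := by
      rcases lt_or_ge (u w) d with hlt | hge
      · have h1 := abs_le.1 (hd w huw hlt)
        have hN1 : 0.99 ≤ N := by linarith [h1.1]
        have hN2 : N ≤ 1.01 := by linarith [h1.2]
        constructor
        · nlinarith [sq_nonneg (e - 0.5), mul_le_mul_of_nonneg_left hN1 (sq_nonneg e)]
        · have h2 : 4 * e * N + e / 100 ≤ 4.05 * e := by nlinarith
          have h3 : 0 ≤ 4 * e * N + e / 100 := by positivity
          have h4 : (4 * e * N + e / 100) ^ 2 ≤ (4.05 * e) ^ 2 := by gcongr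
          nlinarith [mul_le_mul_of_nonneg_left hN1 (sq_nonneg e), sq_nonneg e]
      · have h1 : 20 * l * u w ≥ 100 * (4 * H + 1) := by
          have : l * d ≤ l * u w := mul_le_mul_of_nonneg_left hge hl0.le
          nlinarith
        have h2 : e * (4 * H + 1) ≤ 1 / 100 := by
          have h3 : e * Real.exp (20 * l * u w) = 1 := by
            rw [he]
            unfold ee
            rw [← Real.exp_add]
            rw [← hw]
            simp
          have h4 : 20 * l * u w + 1 ≤ Real.exp (20 * l * u w) := Real.add_one_le_exp _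
          have h5 : e * (100 * (4 * H + 1)) ≤ e * Real.exp (20 * l * u w) := by
            apply mul_le_mul_of_nonneg_left _ hePos.le
            linarith
          rw [h3] at h5
          linarith
        have h3 : e ≤ 1 / 100 := by nlinarith
        have h4 : 0 ≤ e ^ 2 * N := by positivity
        have h5 : 4 * e * N + e / 100 ≤ 1 / 50 := by nlinarith
        have h6 : 0 ≤ 4 * e * N + e / 100 := by positivity
        constructor
        · norm_num
          linarith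
        · have h7 : (4 * e * N + e / 100) ^ 2 ≤ (1 / 50) ^ 2 := by gcongr
          norm_num at h7 ⊢
          linarith
    obtain ⟨hc1, hc2⟩ := hcase
    set R : ℝ := e ^ 2 * N + 1 - e with hR
    have hR0 : 0 < R := lt_of_lt_of_le (by norm_num) hc1
    have hsq : √(‖fderiv ℝ (Phi u l) y‖ ^ 2 + 4 * Phi u l y) = √R / 5 := by
      rw [hnorm, Real.sqrt_mul (by norm_num), show (1 / 25 : ℝ) = (1 / 5) ^ 2 by norm_num,
        Real.sqrt_sq (by norm_num)]
      ring
    refine ⟨by rw [hPhi]; linarith, by rw [hnorm]; positivity, ?_⟩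
    intro v s hs
    rw [hsq, Phi_second u hus l hl0, ← hw, ← he]
    have hs1 : 2 ≤ 4.6 * √R := by
      have : (0.86 : ℝ) ≤ √R := by
        rw [show (0.86 : ℝ) = √(0.86 ^ 2) by rw [Real.sqrt_sq (by norm_num)]]
        exact Real.sqrt_le_sqrt hc1
      linarith
    have hs2 : 4 * e * N + e / 100 ≤ 4.6 * √R := by
      have h1 : 0 ≤ 4 * e * N + e / 100 := by positivity
      have h2 : √((4 * e * N + e / 100) ^ 2) ≤ √(4.6 ^ 2 * R) := Real.sqrt_le_sqrt hc2
      rw [Real.sqrt_sq h1, Real.sqrt_mul (by norm_num), Real.sqrt_sq (by norm_num)] at h2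
      exact h2
    have hv1 : (fderiv ℝ u w v) ^ 2 ≤ N * ‖v‖ ^ 2 := by
      have h1 := (fderiv ℝ u w).le_opNorm v
      rw [hN, ← mul_pow, ← sq_abs]
      rw [← Real.norm_eq_abs]
      gcongr
    have hv2 : |fderiv ℝ (fderiv ℝ u) w v v| ≤ H * ‖v‖ ^ 2 := by
      have h1 := (fderiv ℝ (fderiv ℝ u) w v).le_opNorm v
      have h2 := (fderiv ℝ (fderiv ℝ u) w).le_opNorm v
      have h3 := hHb w huw
      rw [← Real.norm_eq_abs]
      have h4 : ‖fderiv ℝ (fderiv ℝ u) w v‖ * ‖v‖ ≤ (H * ‖v‖) * ‖v‖ := by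
        gcongr
        exact h2.trans (by gcongr)
      calc ‖fderiv ℝ (fderiv ℝ u) w v v‖ ≤ ‖fderiv ℝ (fderiv ℝ u) w v‖ * ‖v‖ := h1
        _ ≤ (H * ‖v‖) * ‖v‖ := h4
        _ = H * ‖v‖ ^ 2 := by ring
    have hv3 : |e / (5 * l) * fderiv ℝ (fderiv ℝ u) w v v| ≤ e / 100 * ‖v‖ ^ 2 := by
      rw [abs_mul, abs_of_nonneg (by positivity)]
      have h1 : e / (5 * l) * H ≤ e / 100 := by
        rw [div_mul_eq_mul_div, div_le_div_iff₀ (by positivity) (by norm_num)]
        nlinarith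
      calc e / (5 * l) * |fderiv ℝ (fderiv ℝ u) w v v| ≤ e / (5 * l) * (H * ‖v‖ ^ 2) := by
            gcongr
        _ = (e / (5 * l) * H) * ‖v‖ ^ 2 := by ring
        _ ≤ e / 100 * ‖v‖ ^ 2 := by gcongr
    have hv4 := abs_le.1 hv3
    have hvv : 0 ≤ ‖v‖ ^ 2 := by positivity
    have hfin1 : 4 * e * (fderiv ℝ u w v) ^ 2 + e / 100 * ‖v‖ ^ 2 ≤ 4.6 * √R * ‖v‖ ^ 2 := by
      have h1 : 4 * e * (fderiv ℝ u w v) ^ 2 ≤ 4 * e * (N * ‖v‖ ^ 2) := by gcongr
      have h2 := mul_le_mul_of_nonneg_right hs2 hvv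
      linarith
    have hfin2 : 2 * s ≤ 4.6 * √R * s := mul_le_mul_of_nonneg_right hs1 hs
    have hsq0 : 0 ≤ 4 * e * (fderiv ℝ u w v) ^ 2 := by positivity
    have hgoal : 23 * (√R / 5) * (‖v‖ ^ 2 + s) = 4.6 * √R * ‖v‖ ^ 2 + 4.6 * √R * s := by ring
    rw [hgoal, abs_le]
    constructor
    · have h1 : 0 ≤ 4.6 * √R * s := by positivity
      linarith [hv4.1, hv4.2]
    · linarith [hv4.1, hv4.2]

end Pool.Agent.Helper85.BC
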